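import Mathlib
import Pool.Agent.H111N.Red

set_option autoImplicit false

/-!
# MP_8d42bc_co: two-colourings with independent random edges

An independent random colouring of the edges of `K_N` is given by `p : Sym2 (Fin N) → ℝ`:
the edge `e` is red (`true`) with probability `p e` and blue (`false`) with probability `1 - p e`.
-/

namespace Pool.Agent.Results.MP_8d42bc_co.NoisyColourings

open Finset Pool.Agent.H111N

/-- `P_p(A)`: the probability of the event `A` when the values `c e` are independent and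
`c e = true` has probability `p e`. -/
noncomputable def prob {N : ℕ} (p : Sym2 (Fin N) → ℝ) (A : (Sym2 (Fin N) → Bool) → Prop) : ℝ := by
  classical
  exact ∑ c ∈ (univ : Finset (Sym2 (Fin N) → Bool)).filter A, ∏ e, if c e then p e else 1 - p e

/-- the colouring `c` of the edges of `K_N` has a clique on `k` vertices all of whose edges have
the colour `b` -/
def HasClique {N : ℕ} (c : Sym2 (Fin N) → Bool) (k : ℕ) (b : Bool) : Prop :=
  ∃ S : Finset (Fin N), S.card = k ∧ ∀ x ∈ S, ∀ y ∈ S, x ≠ y → c s(x, y) = b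

theorem prob_red {N : ℕ} (p : Sym2 (Fin N) → ℝ) (k : ℕ) :
    prob p (fun c => ¬ HasClique c k true) =
      ∑ c ∈ univ.filter (fun c : Sym2 (Fin N) → Bool =>
        ¬ ∃ S : Finset (Fin N), S.card = k ∧ ∀ x ∈ S, ∀ y ∈ S, x ≠ y → c s(x, y) = true),
          wt p c := by
  unfold prob HasClique wt
  apply Finset.sum_congr _ (fun _ _ => rfl)
  ext c; simp only [Finset.mem_filter]

theorem prob_blue {N : ℕ} (p : Sym2 (Fin N) → ℝ) (k : ℕ) :
    prob p (fun c => ¬ HasClique c k false) =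
      ∑ c ∈ univ.filter (fun c : Sym2 (Fin N) → Bool =>
        ¬ ∃ S : Finset (Fin N), S.card = k ∧ ∀ x ∈ S, ∀ y ∈ S, x ≠ y → c s(x, y) = false),
          wt p c := by
  unfold prob HasClique wt
  apply Finset.sum_congr _ (fun _ _ => rfl)
  ext c; simp only [Finset.mem_filter]

theorem prob_mono {N : ℕ} (p : Sym2 (Fin N) → ℝ) (h0 : ∀ e, 0 ≤ p e) (h1 : ∀ e, p e ≤ 1)
    (A B : (Sym2 (Fin N) → Bool) → Prop) (hAB : ∀ c, A c → B c) : prob p A ≤ prob p B := by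
  classical
  unfold prob
  apply Finset.sum_le_sum_of_subset_of_nonneg
  · intro c hc
    simp only [Finset.mem_filter, Finset.mem_univ, true_and] at hc ⊢
    exact hAB c hc
  · intro c _ _
    exact wt_nonneg h0 h1 c

/-- red cliques in an inhomogeneous random graph -/
theorem redPart (δ M β ε : ℝ) (hδ : 0 < δ) (hM : 0 ≤ M) (hβ : Real.exp (M / 2) < β) (hε : 0 < ε) :
    ∃ k₀ : ℕ, ∀ k : ℕ, k₀ ≤ k → ∀ N : ℕ, β ^ k ≤ (N : ℝ) → ∀ p : Sym2 (Fin N) → ℝ,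
      (∀ e, δ ≤ p e ∧ p e ≤ 1) →
      ∑ e : Sym2 (Fin N) with ¬ e.IsDiag, Real.log (1 / p e) ≤ M * (N.choose 2 : ℕ) →
      prob p (fun c => ¬ HasClique c k true) ≤ ε := by
  have hβ0 : 0 < β := (Real.exp_pos _).trans hβ
  have hlog : M / 2 < Real.log β := (Real.lt_log_iff_exp_lt hβ0).mpr hβ
  obtain ⟨k₀, hk₀⟩ := red δ M β ε hδ hM hβ0 hlog hε
  refine ⟨k₀, ?_⟩
  intro k hk N hN p hp hsum
  rw [prob_red]
  apply hk₀ k hk N hN p (fun e => (hp e).1) (fun e => (hp e).2)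
  refine le_trans (le_of_eq ?_) hsum
  apply Finset.sum_congr rfl
  intro e _
  rw [one_div, Real.log_inv]

/-- two colours -/
theorem ramseyPart (δ L β ε : ℝ) (hδ : 0 < δ) (hL : 0 ≤ L) (hβ : Real.exp (L / 4) < β)
    (hε : 0 < ε) :
    ∃ k₀ : ℕ, ∀ k : ℕ, k₀ ≤ k → ∀ N : ℕ, β ^ k ≤ (N : ℝ) → ∀ p : Sym2 (Fin N) → ℝ,
      (∀ e, δ ≤ p e ∧ p e ≤ 1 - δ) →
      ∑ e : Sym2 (Fin N) with ¬ e.IsDiag, Real.log (1 / (p e * (1 - p e))) ≤
        L * (N.choose 2 : ℕ) →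
      prob p (fun c => ¬ ∃ b, HasClique c k b) ≤ ε := by
  have hβ0 : 0 < β := (Real.exp_pos _).trans hβ
  have hlog : L / 4 < Real.log β := (Real.lt_log_iff_exp_lt hβ0).mpr hβ
  obtain ⟨k₁, hk₁⟩ := red δ (L / 2) β ε hδ (by positivity) hβ0 (by linarith) hε
  obtain ⟨k₂, hk₂⟩ := blue δ (L / 2) β ε hδ (by positivity) hβ0 (by linarith) hε
  refine ⟨max k₁ k₂, ?_⟩
  intro k hk N hN p hp hsum
  have hp0 : ∀ e, 0 < p e := fun e => lt_of_lt_of_le hδ (hp e).1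
  have hq0 : ∀ e, 0 < 1 - p e := fun e => by have := (hp e).2; linarith
  have hsplit : ∑ e : Sym2 (Fin N) with ¬ e.IsDiag, Real.log (1 / (p e * (1 - p e))) =
      ∑ e : Sym2 (Fin N) with ¬ e.IsDiag, -Real.log (p e) +
      ∑ e : Sym2 (Fin N) with ¬ e.IsDiag, -Real.log (1 - p e) := by
    rw [← Finset.sum_add_distrib]
    apply Finset.sum_congr rfl
    intro e _
    rw [one_div, Real.log_inv, Real.log_mul (hp0 e).ne' (hq0 e).ne']
    ring
  rw [hsplit] at hsum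
  rcases le_or_gt (∑ e : Sym2 (Fin N) with ¬ e.IsDiag, -Real.log (p e))
    (L / 2 * (N.choose 2 : ℕ)) with h | h
  · have h1 := hk₁ k ((le_max_left _ _).trans hk) N hN p (fun e => (hp e).1)
      (fun e => by have := hq0 e; linarith) h
    rw [← prob_red] at h1
    refine le_trans (prob_mono p (fun e => (hp0 e).le) (fun e => by have := hq0 e; linarith) _ _ ?_) h1
    intro c hc h2
    exact hc ⟨true, h2⟩
  · have h3 : ∑ e : Sym2 (Fin N) with ¬ e.IsDiag, -Real.log (1 - p e) ≤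
        L / 2 * (N.choose 2 : ℕ) := by linarith
    have h1 := hk₂ k ((le_max_right _ _).trans hk) N hN p (fun e => (hp0 e).le)
      (fun e => (hp e).2) h3
    rw [← prob_blue] at h1
    refine le_trans (prob_mono p (fun e => (hp0 e).le) (fun e => by have := hq0 e; linarith) _ _ ?_) h1
    intro c hc h2
    exact hc ⟨false, h2⟩

theorem noisePart (δ β ε : ℝ) (hδ : 0 < δ) (hδ2 : δ ≤ 1 / 2)
    (hβ : (δ * (1 - δ)) ^ (-(1 / 4) : ℝ) < β) (hε : 0 < ε) :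
    ∃ k₀ : ℕ, ∀ k : ℕ, k₀ ≤ k → ∀ N : ℕ, β ^ k ≤ (N : ℝ) → ∀ p : Sym2 (Fin N) → ℝ,
      (∀ e, δ ≤ p e ∧ p e ≤ 1 - δ) → prob p (fun c => ¬ ∃ b, HasClique c k b) ≤ ε := by
  have hpos : 0 < δ * (1 - δ) := mul_pos hδ (by linarith)
  have hle : δ * (1 - δ) ≤ 1 := by nlinarith
  set L : ℝ := -Real.log (δ * (1 - δ)) with hL
  have hL0 : 0 ≤ L := by
    have := Real.log_nonpos hpos.le hle
    rw [hL]; linarith
  have hβ' : Real.exp (L / 4) < β := by
    rw [Real.rpow_def_of_pos hpos] at hβ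
    refine lt_of_le_of_lt (le_of_eq ?_) hβ
    congr 1
    rw [hL]; ring
  obtain ⟨k₀, hk₀⟩ := ramseyPart δ L β ε hδ hL0 hβ' hε
  refine ⟨k₀, ?_⟩
  intro k hk N hN p hp
  apply hk₀ k hk N hN p hp
  have hcard : ((univ.filter (fun e : Sym2 (Fin N) => ¬ e.IsDiag)).card : ℝ) =
      (N.choose 2 : ℕ) := by
    have h1 := Sym2.card_subtype_not_diag (α := Fin N)
    rw [Fintype.card_fin] at h1
    rw [← h1, Fintype.card_subtype]
  calc ∑ e : Sym2 (Fin N) with ¬ e.IsDiag, Real.log (1 / (p e * (1 - p e)))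
      ≤ ∑ e : Sym2 (Fin N) with ¬ e.IsDiag, L := by
        apply Finset.sum_le_sum
        intro e _
        obtain ⟨h1, h2⟩ := hp e
        have h3 : δ * (1 - δ) ≤ p e * (1 - p e) := by nlinarith
        rw [one_div, Real.log_inv, hL]
        have := Real.log_le_log hpos h3
        linarith
    _ = L * (N.choose 2 : ℕ) := by
        rw [Finset.sum_const, nsmul_eq_mul, hcard, mul_comm]

/-- **Main result.** -/
theorem result :
    -- (A) red cliques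
    (∀ δ M β ε : ℝ, 0 < δ → 0 ≤ M → Real.exp (M / 2) < β → 0 < ε →
      ∃ k₀ : ℕ, ∀ k : ℕ, k₀ ≤ k → ∀ N : ℕ, β ^ k ≤ (N : ℝ) → ∀ p : Sym2 (Fin N) → ℝ,
        (∀ e, δ ≤ p e ∧ p e ≤ 1) →
        ∑ e : Sym2 (Fin N) with ¬ e.IsDiag, Real.log (1 / p e) ≤ M * (N.choose 2 : ℕ) →
        prob p (fun c => ¬ HasClique c k true) ≤ ε) ∧
    -- (B) monochromatic cliques
    (∀ δ L β ε : ℝ, 0 < δ → 0 ≤ L → Real.exp (L / 4) < β → 0 < ε →
      ∃ k₀ : ℕ, ∀ k : ℕ, k₀ ≤ k → ∀ N : ℕ, β ^ k ≤ (N : ℝ) → ∀ p : Sym2 (Fin N) → ℝ,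
        (∀ e, δ ≤ p e ∧ p e ≤ 1 - δ) →
        ∑ e : Sym2 (Fin N) with ¬ e.IsDiag, Real.log (1 / (p e * (1 - p e))) ≤
          L * (N.choose 2 : ℕ) →
        prob p (fun c => ¬ ∃ b, HasClique c k b) ≤ ε) ∧
    -- (C) every colouring, after noise of rate `δ`
    (∀ δ β ε : ℝ, 0 < δ → δ ≤ 1 / 2 → (δ * (1 - δ)) ^ (-(1 / 4) : ℝ) < β → 0 < ε →
      ∃ k₀ : ℕ, ∀ k : ℕ, k₀ ≤ k → ∀ N : ℕ, β ^ k ≤ (N : ℝ) → ∀ p : Sym2 (Fin N) → ℝ,
        (∀ e, δ ≤ p e ∧ p e ≤ 1 - δ) → prob p (fun c => ¬ ∃ b, HasClique c k b) ≤ ε) :=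
  ⟨redPart, ramseyPart, noisePart⟩

end Pool.Agent.Results.MP_8d42bc_co.NoisyColourings
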